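import Mathlib
import Pool.Agent.Q48.IR.Lower

/-!
The maximal number `N(D)` of bounded components of the curve where `R'` is real is the number of
finite poles if `∞` is a pole, and the number of finite poles minus one otherwise.
-/

namespace Pool.Agent.Results.MP_bd2914_ag.MaxComponents

open Polynomial Q48.IR

/-- For the pole divisor `∑ m p [p] + mInf [∞]` with at least one finite pole, the maximal number
of bounded components is the number of finite poles, minus one if `mInf = 0`. -/
theorem result (m : ℂ →₀ ℕ) (hm : m.support.Nonempty) (mInf : ℕ) :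
    IsGreatest {b : ℕ∞ | ∃ P Q : ℂ[X], HasPoleDivisor P Q m mInf ∧
      b = (boundedComponents P Q).encard}
      ((if mInf = 0 then m.support.card - 1 else m.support.card : ℕ) : ℕ∞) := by
  constructor
  · split_ifs with h
    · subst h
      obtain ⟨P, Q, h1, h2⟩ := exists_zero hm
      exact ⟨P, Q, h1, le_antisymm h2 (encard_le' h1 hm)⟩
    · obtain ⟨k, rfl⟩ := Nat.exists_eq_succ_of_ne_zero h
      obtain ⟨P, Q, h1, h2⟩ := exists_pos hm k
      exact ⟨P, Q, h1, le_antisymm h2 (encard_le h1 hm)⟩
  · rintro b ⟨P, Q, h1, rfl⟩
    split_ifs with h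
    · subst h
      exact encard_le' h1 hm
    · exact encard_le h1 hm

end Pool.Agent.Results.MP_bd2914_ag.MaxComponents
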